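import Mathlib
import Pool.Agent.helper81.SqMain

/-!
Under GCH the relation R(κ) fails at every singular cardinal of uncountable cofinality; in
particular it does not hold at every singular cardinal.
-/

set_option autoImplicit false

namespace Pool.Agent.Results.MP_0cbb3c_lc.SquareFails

open Cardinal Order Pool.Agent.Sq

universe u

theorem result (gch : ∀ c : Cardinal.{u}, ℵ₀ ≤ c → 2 ^ c = succ c) :
    (∀ κ : Cardinal.{u}, κ.IsSingular → ℵ₀ < κ.ord.cof → ¬ SqR κ) ∧
      ¬ ∀ κ : Cardinal.{u}, κ.IsSingular → SqR κ := by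
  refine ⟨fun κ hs hc => not_SqR_of_gch gch κ hs hc, fun h => ?_⟩
  obtain ⟨κ, hs, hc⟩ := exists_singular.{u}
  exact not_SqR_of_gch gch κ hs hc (h κ hs)

end Pool.Agent.Results.MP_0cbb3c_lc.SquareFails
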